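import Mathlib
import Pool.Agent.H298Z.Para

/-! # A topologically periodic compact-like paratopological group that is not topological -/

set_option autoImplicit false

open Topology

namespace Pool.Agent.Results.MP_82b063_al.PeriodicExample

/-- There is an abelian group (written additively) with a Hausdorff topology in which addition is
jointly continuous, which is topologically periodic, countably pracompact, left `ω`-precompact and
pseudocompact, and in which inversion is not continuous. -/
theorem result : ∃ (G : Type) (_ : AddCommGroup G) (_ : TopologicalSpace G),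
    ContinuousAdd G ∧ T2Space G ∧
    (∀ x : G, ∀ U ∈ 𝓝 (0 : G), ∃ n : ℕ, 1 ≤ n ∧ n • x ∈ U) ∧
    (∃ D : Set G, Dense D ∧ ∀ B ⊆ D, B.Infinite → ∃ y : G, ∀ U ∈ 𝓝 y, (U ∩ B).Infinite) ∧
    (∀ U ∈ 𝓝 (0 : G), ∃ F : Set G, F.Countable ∧ ∀ g : G, ∃ f ∈ F, ∃ u ∈ U, g = f + u) ∧
    (∀ (ι : Type) (V : ι → Set G), LocallyFinite V → (∀ i, IsOpen (V i) ∧ (V i).Nonempty) →
      Finite ι) ∧
    ¬ ContinuousNeg G :=
  ⟨Pool.Agent.H298Z.Para.G, inferInstance, inferInstance,
    Pool.Agent.H298Z.Para.continuousAdd_G, Pool.Agent.H298Z.Para.t2_G,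
    Pool.Agent.H298Z.Para.periodic_G, Pool.Agent.H298Z.Para.pracompact_G,
    Pool.Agent.H298Z.Para.precompact_G, Pool.Agent.H298Z.Para.pseudocompact_G,
    Pool.Agent.H298Z.Para.not_continuousNeg_G⟩

end Pool.Agent.Results.MP_82b063_al.PeriodicExample
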